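import Pool.Agent.Helper57_K9.Stmts

/-!
# Row K9_EIS: orthogonal vectors over the Eisenstein integers
-/

open scoped BigOperators

namespace Pool.Agent.PP.K9.H41

variable {ω : ℂ}

lemma om_sq (h : IsPrimitiveRoot ω 3) : ω ^ 2 = -1 - ω := by
  have h1 : ω ^ 3 = 1 := h.pow_eq_one
  have h2 : ω - 1 ≠ 0 := sub_ne_zero.mpr (h.ne_one (by norm_num))
  have h3 : (ω - 1) * (ω ^ 2 + ω + 1) = 0 := by
    have : (ω - 1) * (ω ^ 2 + ω + 1) = ω ^ 3 - 1 := by ring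
    rw [this, h1, sub_self]
  have h4 := (mul_eq_zero.mp h3).resolve_left h2
  linear_combination h4

lemma om_conj (h : IsPrimitiveRoot ω 3) : starRingEnd ℂ ω = -1 - ω := by
  have h1 : ω ^ 3 = 1 := h.pow_eq_one
  have hn : ‖ω‖ = 1 := Complex.norm_eq_one_of_pow_eq_one h1 (by norm_num)
  have h2 : ω * starRingEnd ℂ ω = 1 := by
    rw [Complex.mul_conj, Complex.normSq_eq_norm_sq, hn]
    norm_num
  have h0 : ω ≠ 0 := h.ne_zero (by norm_num)
  have h3 : ω * starRingEnd ℂ ω = ω * ω ^ 2 := by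
    rw [h2]
    rw [← h1]
    ring
  rw [mul_left_cancel₀ h0 h3, om_sq h]

lemma om_li (h : IsPrimitiveRoot ω 3) {p q : ℤ} (hpq : (p : ℂ) + q * ω = 0) : p = 0 ∧ q = 0 := by
  have h1 : starRingEnd ℂ ((p : ℂ) + q * ω) = 0 := by rw [hpq, map_zero]
  have h2 : (p : ℂ) + q * (-1 - ω) = 0 := by
    rw [← om_conj h, ← h1, map_add, map_mul]
    simp
  have h3 : (q : ℂ) * (2 * ω + 1) = 0 := by linear_combination hpq - h2
  have h4 : (2 * ω + 1 : ℂ) ≠ 0 := by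
    intro h5
    have h6 := om_sq h
    have h7 : ω = -1 / 2 := by linear_combination h5 / 2
    rw [h7] at h6
    norm_num at h6
  have hq : (q : ℂ) = 0 := (mul_eq_zero.mp h3).resolve_right h4
  have hp : (p : ℂ) = 0 := by rw [hq] at hpq; simpa using hpq
  exact ⟨by exact_mod_cast hp, by exact_mod_cast hq⟩

lemma om_norm (h : IsPrimitiveRoot ω 3) (a b : ℤ) :
    ((a : ℂ) + b * ω) * starRingEnd ℂ ((a : ℂ) + b * ω) = ((a * a - a * b + b * b : ℤ) : ℂ) := by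
  have h1 : starRingEnd ℂ ((a : ℂ) + b * ω) = a + b * (-1 - ω) := by
    rw [← om_conj h, map_add, map_mul]
    simp
  rw [h1]
  push_cast
  linear_combination (-(b : ℂ) * b) * om_sq h

/-- the units -/
lemma units (h : IsPrimitiveRoot ω 3) {z : ℂ} (hz : ∃ a b : ℤ, z = a + b * ω)
    (h1 : z * starRingEnd ℂ z = 1) : ∃ ε : ℤ, (ε = 1 ∨ ε = -1) ∧ ∃ j : ℕ, j < 3 ∧ z = ε * ω ^ j := by
  obtain ⟨a, b, rfl⟩ := hz
  rw [om_norm h] at h1
  have h2 : a * a - a * b + b * b = 1 := by exact_mod_cast h1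
  have hb : b * b ≤ 1 := by nlinarith [sq_nonneg (2 * a - b)]
  have ha : a * a ≤ 1 := by nlinarith [sq_nonneg (2 * b - a)]
  have hb1 : b ≤ 1 := by nlinarith
  have hb2 : -1 ≤ b := by nlinarith
  have ha1 : a ≤ 1 := by nlinarith
  have ha2 : -1 ≤ a := by nlinarith
  have hs := om_sq h
  interval_cases a <;> interval_cases b
  · refine ⟨1, Or.inl rfl, 2, by norm_num, ?_⟩
    rw [hs]; push_cast; ring
  · refine ⟨-1, Or.inr rfl, 0, by norm_num, ?_⟩
    push_cast; ring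
  · norm_num at h2
  · refine ⟨-1, Or.inr rfl, 1, by norm_num, ?_⟩
    push_cast; ring
  · norm_num at h2
  · refine ⟨1, Or.inl rfl, 1, by norm_num, ?_⟩
    push_cast; ring
  · norm_num at h2
  · refine ⟨1, Or.inl rfl, 0, by norm_num, ?_⟩
    push_cast; ring
  · refine ⟨-1, Or.inr rfl, 2, by norm_num, ?_⟩
    rw [hs]; push_cast; ring

/-- the size of `ι` -/
lemma three (h : IsPrimitiveRoot ω 3) {ι : Type} [Fintype ι] {deg : ι → ℕ} (hdeg : ∀ i, deg i ≠ 0)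
    {δ : ι → ℂ} (h1 : ∀ i, δ i ≠ 0 ∧ ∃ a b : ℤ, δ i = a + b * ω)
    (h2 : ∑ i, δ i * starRingEnd ℂ (δ i) = 3) (h3 : ∑ i, δ i * deg i = 0) :
    Fintype.card ι = 3 ∧ ∀ i, δ i * starRingEnd ℂ (δ i) = 1 := by
  classical
  choose h0 a b hab using h1
  have hN : ∀ i, δ i * starRingEnd ℂ (δ i) = ((a i * a i - a i * b i + b i * b i : ℤ) : ℂ) := by
    intro i
    rw [hab i, om_norm h]
  have hsum : ∑ i, (a i * a i - a i * b i + b i * b i) = 3 := by
    have : ((∑ i, (a i * a i - a i * b i + b i * b i) : ℤ) : ℂ) = ((3 : ℤ) : ℂ) := by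
      push_cast
      rw [← h2]
      refine Finset.sum_congr rfl fun i _ => ?_
      rw [hN i]
      push_cast
      ring
    exact_mod_cast this
  have hpos : ∀ i, 1 ≤ a i * a i - a i * b i + b i * b i := by
    intro i
    have h4 : 0 ≤ a i * a i - a i * b i + b i * b i := by
      nlinarith [sq_nonneg (2 * a i - b i), sq_nonneg (b i)]
    have h5 : a i * a i - a i * b i + b i * b i ≠ 0 := by
      intro h6
      have h7 : δ i * starRingEnd ℂ (δ i) = 0 := by rw [hN i, h6]; simp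
      rcases mul_eq_zero.mp h7 with h8 | h8
      · exact h0 i h8
      · exact h0 i ((map_eq_zero _).mp h8)
    omega
  have hne2 : ∀ i, a i * a i - a i * b i + b i * b i ≠ 2 := by
    intro i h4
    generalize a i = x at h4
    generalize b i = y at h4
    have hb : y * y ≤ 2 := by nlinarith [sq_nonneg (2 * x - y)]
    have ha : x * x ≤ 2 := by nlinarith [sq_nonneg (2 * y - x)]
    have hb1 : y ≤ 1 := by nlinarith
    have hb2 : -1 ≤ y := by nlinarith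
    have ha1 : x ≤ 1 := by nlinarith
    have ha2 : -1 ≤ x := by nlinarith
    interval_cases x <;> interval_cases y <;> norm_num at h4
  have hcard : (Fintype.card ι : ℤ) ≤ 3 := by
    rw [← hsum]
    calc (Fintype.card ι : ℤ) = ∑ _i : ι, (1 : ℤ) := by simp
      _ ≤ _ := Finset.sum_le_sum fun i _ => hpos i
  have hc : Fintype.card ι = 3 := by
    have hc4 : Fintype.card ι = 0 ∨ Fintype.card ι = 1 ∨ Fintype.card ι = 2 ∨
      Fintype.card ι = 3 := by omega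
    rcases hc4 with hc | hc | hc | hc
    · exfalso
      have := Fintype.card_eq_zero_iff.mp hc
      rw [Fintype.sum_empty] at hsum
      norm_num at hsum
    · exfalso
      obtain ⟨x, hx⟩ := Fintype.card_eq_one_iff.mp hc
      have hu : (Finset.univ : Finset ι) = {x} := by
        ext i; simp [hx i]
      rw [hu, Finset.sum_singleton] at h3
      rcases mul_eq_zero.mp h3 with h4 | h4
      · exact h0 x h4
      · exact hdeg x (by exact_mod_cast h4)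
    · exfalso
      obtain ⟨x, y, hxy, hu⟩ := Finset.card_eq_two.mp (show (Finset.univ : Finset ι).card = 2 from hc)
      rw [hu, Finset.sum_pair hxy] at hsum
      have hx := hpos x
      have hy := hpos y
      have hx2 := hne2 x
      have hy2 := hne2 y
      omega
    · exact hc
  refine ⟨hc, fun i => ?_⟩
  rw [hN i]
  have hle : a i * a i - a i * b i + b i * b i ≤ 1 := by
    by_contra hlt
    push Not at hlt
    have h5 : ∑ _i : ι, (1 : ℤ) < ∑ i, (a i * a i - a i * b i + b i * b i) :=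
      Finset.sum_lt_sum (fun i _ => hpos i) ⟨i, Finset.mem_univ i, hlt⟩
    rw [hsum] at h5
    simp [hc] at h5
  have h6 := hpos i
  have h7 : a i * a i - a i * b i + b i * b i = 1 := by omega
  rw [h7]
  norm_num

/-- the real case -/
lemma case_real {x₁ x₂ x₃ y₁ y₂ y₃ : ℂ} (hx1 : starRingEnd ℂ x₁ = x₁) (hx2 : starRingEnd ℂ x₂ = x₂)
    (h1 : x₁ ≠ 0) (h3 : x₃ ≠ 0)
    (hy1 : y₁ * starRingEnd ℂ y₁ = 1) (hy2 : y₂ * starRingEnd ℂ y₂ = 1)
    (hy3 : y₃ ≠ 0) (hx : x₁ + x₂ + x₃ = 0) (hy : y₁ + y₂ + y₃ = 0)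
    (hxy : x₁ * y₁ + x₂ * y₂ + x₃ * y₃ = 0) : False := by
  have hx3 : x₃ = -x₁ - x₂ := by linear_combination hx
  have hy3' : y₃ = -y₁ - y₂ := by linear_combination hy
  have e1 : y₁ * (2 * x₁ + x₂) = -(y₂ * (2 * x₂ + x₁)) := by
    rw [hx3, hy3'] at hxy
    linear_combination hxy
  have e2 : starRingEnd ℂ y₁ * (2 * x₁ + x₂) = -(starRingEnd ℂ y₂ * (2 * x₂ + x₁)) := by
    have h := congrArg (starRingEnd ℂ) e1
    simpa [map_mul, map_add, map_neg, hx1, hx2, Complex.conj_ofNat] using h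
  have e3 : (2 * x₁ + x₂) * (2 * x₁ + x₂) = (2 * x₂ + x₁) * (2 * x₂ + x₁) := by
    have h : (y₁ * (2 * x₁ + x₂)) * (starRingEnd ℂ y₁ * (2 * x₁ + x₂)) =
        (-(y₂ * (2 * x₂ + x₁))) * (-(starRingEnd ℂ y₂ * (2 * x₂ + x₁))) := by rw [e1, e2]
    linear_combination h - (2 * x₁ + x₂) * (2 * x₁ + x₂) * hy1 +
      (2 * x₂ + x₁) * (2 * x₂ + x₁) * hy2
  have e4 : (x₁ - x₂) * (x₁ + x₂) = 0 := by linear_combination e3 / 3
  rcases mul_eq_zero.mp e4 with h | h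
  · have hx12 : x₂ = x₁ := by linear_combination -h
    rw [hx12] at hx3 hxy
    rw [hx3] at hxy
    have h5 : x₁ * (3 * y₃) = 0 := by
      linear_combination -hxy + x₁ * hy
    rcases mul_eq_zero.mp h5 with h6 | h6
    · exact h1 h6
    · exact hy3 (by linear_combination h6 / 3)
  · exact h3 (by linear_combination hx - h)

/-- the nonreal case -/
lemma case_nr (h : IsPrimitiveRoot ω 3) {z₁ z₂ z₃ : ℂ} {d₁ d₂ d₃ : ℕ} (_hd1 : d₁ ≠ 0) (_hd2 : d₂ ≠ 0)
    (hd3 : d₃ ≠ 0) (hz1 : ∃ ε : ℤ, (ε = 1 ∨ ε = -1) ∧ ∃ j : ℕ, j < 3 ∧ z₁ = ε * ω ^ j)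
    (hz2 : ∃ ε : ℤ, (ε = 1 ∨ ε = -1) ∧ ∃ j : ℕ, j < 3 ∧ z₂ = ε * ω ^ j)
    (hz3 : ∃ ε : ℤ, (ε = 1 ∨ ε = -1) ∧ ∃ j : ℕ, j < 3 ∧ z₃ = ε * ω ^ j)
    (hs : z₁ * z₁ + z₂ * z₂ + z₃ * z₃ = 0) (hd : z₁ * d₁ + z₂ * d₂ + z₃ * d₃ = 0) :
    d₁ = d₂ ∧ d₁ = d₃ ∧ z₁ + z₂ + z₃ = 0 := by
  obtain ⟨e₁, he1, j₁, hj1, rfl⟩ := hz1
  obtain ⟨e₂, he2, j₂, hj2, rfl⟩ := hz2
  obtain ⟨e₃, he3, j₃, hj3, rfl⟩ := hz3
  have hq := om_sq h
  have h3 := h.pow_eq_one
  have h4 : ω ^ 4 = ω := by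
    have : ω ^ 4 = ω ^ 3 * ω := by ring
    rw [this, h3, one_mul]
  have q1 : (e₁ : ℂ) * e₁ = 1 := by rcases he1 with r | r <;> rw [r] <;> norm_num
  have q2 : (e₂ : ℂ) * e₂ = 1 := by rcases he2 with r | r <;> rw [r] <;> norm_num
  have q3 : (e₃ : ℂ) * e₃ = 1 := by rcases he3 with r | r <;> rw [r] <;> norm_num
  -- squares
  have hs' : ω ^ (2 * j₁) + ω ^ (2 * j₂) + ω ^ (2 * j₃) = 0 := by
    have e : ∀ (e : ℤ) (j : ℕ), (e : ℂ) * e = 1 → (e : ℂ) * ω ^ j * (e * ω ^ j) = ω ^ (2 * j) := by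
      intro e j he
      rw [two_mul, pow_add]
      linear_combination (ω ^ j * ω ^ j) * he
    rw [e _ _ q1, e _ _ q2, e _ _ q3] at hs
    exact hs
  have fin : ∀ x₁ x₂ x₃ : ℤ, x₁ = e₁ * d₁ → x₂ = e₂ * d₂ → x₃ = e₃ * d₃ → x₁ = x₂ → x₁ = x₃ →
      d₁ = d₂ ∧ d₁ = d₃ ∧ e₁ = e₂ ∧ e₁ = e₃ := by
    intro x₁ x₂ x₃ g1 g2 g3 g4 g5
    rw [g1] at g4 g5
    rw [g2] at g4
    rw [g3] at g5
    rcases he1 with rfl | rfl <;> rcases he2 with rfl | rfl <;> rcases he3 with rfl | rfl <;> omega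
  have pw : ∀ j : ℕ, j < 3 → ∃ p q P Q : ℤ, ω ^ j = p + q * ω ∧ ω ^ (2 * j) = P + Q * ω ∧
      ((p = 1 ∧ q = 0 ∧ P = 1 ∧ Q = 0) ∨ (p = 0 ∧ q = 1 ∧ P = -1 ∧ Q = -1) ∨
        (p = -1 ∧ q = -1 ∧ P = 0 ∧ Q = 1)) := by
    intro j hj
    interval_cases j
    · refine ⟨1, 0, 1, 0, ?_, ?_, Or.inl ⟨rfl, rfl, rfl, rfl⟩⟩ <;> simp
    · refine ⟨0, 1, -1, -1, ?_, ?_, Or.inr (Or.inl ⟨rfl, rfl, rfl, rfl⟩)⟩
      · simp
      · rw [mul_one, hq]; push_cast; ring
    · refine ⟨-1, -1, 0, 1, ?_, ?_, Or.inr (Or.inr ⟨rfl, rfl, rfl, rfl⟩)⟩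
      · rw [hq]; push_cast; ring
      · rw [show 2 * 2 = 4 from rfl, h4]; push_cast; ring
  obtain ⟨p₁, r₁, P₁, R₁, a1, b1, c1⟩ := pw j₁ hj1
  obtain ⟨p₂, r₂, P₂, R₂, a2, b2, c2⟩ := pw j₂ hj2
  obtain ⟨p₃, r₃, P₃, R₃, a3, b3, c3⟩ := pw j₃ hj3
  have k1 := om_li h (p := P₁ + P₂ + P₃) (q := R₁ + R₂ + R₃) (by
    rw [← hs', b1, b2, b3]; push_cast; ring)
  have k2 := om_li h (p := e₁ * d₁ * p₁ + e₂ * d₂ * p₂ + e₃ * d₃ * p₃)
    (q := e₁ * d₁ * r₁ + e₂ * d₂ * r₂ + e₃ * d₃ * r₃) (by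
    rw [← hd, a1, a2, a3]; push_cast; ring)
  obtain ⟨k11, k12⟩ := k1
  obtain ⟨k21, k22⟩ := k2
  obtain ⟨X₁, hX1⟩ : ∃ x : ℤ, x = e₁ * d₁ := ⟨_, rfl⟩
  obtain ⟨X₂, hX2⟩ : ∃ x : ℤ, x = e₂ * d₂ := ⟨_, rfl⟩
  obtain ⟨X₃, hX3⟩ : ∃ x : ℤ, x = e₃ * d₃ := ⟨_, rfl⟩
  rw [← hX1, ← hX2, ← hX3] at k21 k22
  have all : X₁ = X₂ ∧ X₁ = X₃ ∧ p₁ + p₂ + p₃ = 0 ∧ r₁ + r₂ + r₃ = 0 := by
    rcases c1 with ⟨rfl, rfl, rfl, rfl⟩ | ⟨rfl, rfl, rfl, rfl⟩ | ⟨rfl, rfl, rfl, rfl⟩ <;>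
    rcases c2 with ⟨rfl, rfl, rfl, rfl⟩ | ⟨rfl, rfl, rfl, rfl⟩ | ⟨rfl, rfl, rfl, rfl⟩ <;>
    rcases c3 with ⟨rfl, rfl, rfl, rfl⟩ | ⟨rfl, rfl, rfl, rfl⟩ | ⟨rfl, rfl, rfl, rfl⟩ <;>
    first
      | (exfalso; omega)
      | (refine ⟨?_, ?_, ?_, ?_⟩ <;> omega)
  obtain ⟨g1, g2, g3, g4⟩ := all
  obtain ⟨f1, f2, f3, f4⟩ := fin X₁ X₂ X₃ hX1 hX2 hX3 g1 g2
  refine ⟨f1, f2, ?_⟩
  rw [← f3, ← f4, a1, a2, a3]
  have g3' : (p₁ : ℂ) + p₂ + p₃ = 0 := by exact_mod_cast g3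
  have g4' : (r₁ : ℂ) + r₂ + r₃ = 0 := by exact_mod_cast g4
  linear_combination (e₁ : ℂ) * g3' + (e₁ : ℂ) * ω * g4'

theorem eis : EisStmt := by
  classical
  intro ι _ ω hω deg hdeg D hD h1 h2
  obtain ⟨δ₀, hδ₀⟩ := hD
  obtain ⟨hc, -⟩ := three hω hdeg (h1 δ₀ hδ₀).1 (h1 δ₀ hδ₀).2.1 (h1 δ₀ hδ₀).2.2.1
  have hunit : ∀ δ ∈ D, ∀ i, δ i * starRingEnd ℂ (δ i) = 1 := fun δ hδ =>
    (three hω hdeg (h1 δ hδ).1 (h1 δ hδ).2.1 (h1 δ hδ).2.2.1).2
  obtain ⟨x, y, z, hxy, hxz, hyz, hu⟩ :=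
    Finset.card_eq_three.mp (show (Finset.univ : Finset ι).card = 3 from hc)
  have hall : ∀ i, i = x ∨ i = y ∨ i = z := by
    intro i
    have : i ∈ (Finset.univ : Finset ι) := Finset.mem_univ i
    rw [hu] at this
    simpa using this
  have hsC : ∀ f : ι → ℂ, ∑ i, f i = f x + f y + f z := by
    intro f
    rw [hu, Finset.sum_insert (by simp [hxy, hxz]), Finset.sum_pair hyz]
    ring
  have hsZ : ∀ f : ι → ℤ, ∑ i, f i = f x + f y + f z := by
    intro f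
    rw [hu, Finset.sum_insert (by simp [hxy, hxz]), Finset.sum_pair hyz]
    ring
  by_cases hreal : ∃ δ ∈ D, ∀ i, starRingEnd ℂ (δ i) = δ i
  · -- a real vector
    right
    obtain ⟨δ, hδ, hr⟩ := hreal
    have hpm : ∀ i, ∃ ε : ℤ, (ε = 1 ∨ ε = -1) ∧ δ i = ε := by
      intro i
      have h3 := hunit δ hδ i
      rw [hr i] at h3
      have h4 : (δ i - 1) * (δ i + 1) = 0 := by linear_combination h3
      rcases mul_eq_zero.mp h4 with h5 | h5
      · exact ⟨1, Or.inl rfl, by push_cast; linear_combination h5⟩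
      · exact ⟨-1, Or.inr rfl, by push_cast; linear_combination h5⟩
    choose ε hε hδε using hpm
    have hεε : ∀ i, ε i * ε i = 1 := by
      intro i
      rcases hε i with r | r <;> rw [r] <;> norm_num
    have hεC : ∀ i, (ε i : ℂ) * ε i = 1 := by
      intro i
      exact_mod_cast hεε i
    have hεr : ∀ i, starRingEnd ℂ (ε i : ℂ) = ε i := by
      intro i
      simp
    have hdg := (h1 δ hδ).2.2.1
    rw [hsC] at hdg
    have huniq : ∀ δ' ∈ D, δ' = δ := by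
      intro δ' hδ'
      by_contra hne
      have h3 := h2 δ' hδ' δ hδ hne
      have h4 := (h1 δ' hδ').2.2.1
      rw [hsC] at h3 h4
      have hn : ∀ i, (ε i * δ' i) * starRingEnd ℂ (ε i * δ' i) = 1 := by
        intro i
        rw [map_mul, hεr]
        linear_combination (δ' i * starRingEnd ℂ (δ' i)) * hεC i + hunit δ' hδ' i
      refine case_real (x₁ := ε x * deg x) (x₂ := ε y * deg y) (x₃ := ε z * deg z)
        (y₁ := ε x * δ' x) (y₂ := ε y * δ' y) (y₃ := ε z * δ' z) ?_ ?_ ?_ ?_ (hn x) (hn y) ?_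
        ?_ ?_ ?_
      · simp
      · simp
      · refine mul_ne_zero ?_ (by exact_mod_cast hdeg x)
        intro h5
        have := hεC x
        rw [h5] at this
        simp at this
      · refine mul_ne_zero ?_ (by exact_mod_cast hdeg z)
        intro h5
        have := hεC z
        rw [h5] at this
        simp at this
      · intro h5
        have := hn z
        rw [h5] at this
        simp at this
      · rw [← hδε x, ← hδε y, ← hδε z]
        exact hdg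
      · simp only [hδε, hεr] at h3
        linear_combination h3
      · linear_combination h4 + (deg x * δ' x) * hεC x + (deg y * δ' y) * hεC y +
          (deg z * δ' z) * hεC z
    refine ⟨fun i => if i = x then ε x else if i = y then -ε y else 0,
      fun i => if i = x then ε x else if i = y then 0 else -ε z, ?_, ?_, ?_, ?_,
      -(ε y * deg y), -(ε z * deg z), ?_⟩
    · rw [hsZ]
      simp only [if_true, hxy.symm, hxz.symm, hyz.symm, if_false]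
      linear_combination hεε x + hεε y
    · rw [hsZ]
      simp only [if_true, hxy.symm, hxz.symm, hyz.symm, if_false]
      linear_combination hεε x + hεε z
    · rw [hsZ]
      simp only [if_true, hxy.symm, hxz.symm, hyz.symm, if_false]
      linear_combination hεε x
    · intro δ' hδ'
      rw [huniq δ' hδ', hsC, hsC]
      simp only [if_true, hxy.symm, hxz.symm, hyz.symm, if_false, hδε]
      push_cast
      exact ⟨by linear_combination hεC x - hεC y, by linear_combination hεC x - hεC z⟩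
    · intro i
      rw [hδε, hδε, hδε] at hdg
      rcases hall i with rfl | rfl | rfl
      · simp only [if_true]
        linear_combination (ε i : ℂ) * hdg - (deg i : ℂ) * hεC i
      · simp only [if_true, hxy.symm, if_false]
        push_cast
        linear_combination -(deg i : ℂ) * hεC i
      · simp only [hxz.symm, hyz.symm, if_false]
        push_cast
        linear_combination -(deg i : ℂ) * hεC i
  · -- no real vector
    left
    have hfin : ∀ δ ∈ D, deg x = deg y ∧ deg x = deg z ∧ δ x + δ y + δ z = 0 := by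
      intro δ hδ
      have hne : δ ≠ fun i => starRingEnd ℂ (δ i) := by
        intro h3
        exact hreal ⟨δ, hδ, fun i => (congrFun h3 i).symm⟩
      have h3 := h2 δ hδ _ (h1 δ hδ).2.2.2 hne
      have h4 := (h1 δ hδ).2.2.1
      rw [hsC] at h3 h4
      simp only [Complex.conj_conj] at h3
      exact case_nr hω (hdeg x) (hdeg y) (hdeg z)
        (units hω ((h1 δ hδ).1 x).2 (hunit δ hδ x)) (units hω ((h1 δ hδ).1 y).2 (hunit δ hδ y))
        (units hω ((h1 δ hδ).1 z).2 (hunit δ hδ z)) h3 h4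
    refine ⟨fun _ => 1, ?_, ?_, deg x, ?_⟩
    · rw [hsZ]; norm_num
    · intro δ hδ
      rw [hsC]
      push_cast
      linear_combination (hfin δ hδ).2.2
    · intro i
      obtain ⟨g1, g2, -⟩ := hfin δ₀ hδ₀
      rcases hall i with rfl | rfl | rfl
      · simp
      · rw [g1]; simp
      · rw [g2]; simp

end Pool.Agent.PP.K9.H41
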